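import Pool.Agent.U728.KP.Stm

set_option autoImplicit false

/-!
# Project KP, packages SURJ and EXT (helper324 for helper728): smaller alphabets and longer words
-/

namespace Pool.Agent.U324.KP

open Pool.Agent.U728.KP

theorem t_SURJ : S_SURJ := by
  intro m q q' N hq hqq h
  obtain ⟨C, hC, hN⟩ := h
  classical
  set s : Fin q' → Fin q := fun y => ⟨min y (q - 1), by omega⟩ with hs
  refine ⟨C.image (fun c i => s (c i)), ?_, Finset.card_image_le.trans hN⟩
  intro x
  obtain ⟨c, hc, hd⟩ := hC fun i => Fin.castLE hqq (x i)
  refine ⟨fun i => s (c i), Finset.mem_image_of_mem _ hc, ?_⟩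
  have h1 : (fun i => s (Fin.castLE hqq (x i))) = x := by
    funext i
    apply Fin.ext
    have := (x i).2
    simp only [hs, Fin.val_castLE]
    omega
  have h2 := hammingDist_comp_le_hammingDist (fun (_ : Fin m) => s)
    (x := fun i => Fin.castLE hqq (x i)) (y := c)
  rw [h1] at h2
  exact h2.trans hd

theorem t_EXT : S_EXT := by
  intro n k N h
  obtain ⟨C, hC, hN⟩ := h
  classical
  refine ⟨(C ×ˢ (Finset.univ : Finset (Fin k → Bool))).image (fun p => Fin.append p.1 p.2), ?_, ?_⟩
  · intro x
    obtain ⟨c, hc, hd⟩ := hC fun i => x (Fin.castAdd k i)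
    refine ⟨Fin.append c (fun j => x (Fin.natAdd n j)), ?_, ?_⟩
    · exact Finset.mem_image.2 ⟨(c, fun j => x (Fin.natAdd n j)),
        Finset.mem_product.2 ⟨hc, Finset.mem_univ _⟩, rfl⟩
    · refine le_trans ?_ hd
      unfold hammingDist
      refine le_trans (Finset.card_le_card (t := (Finset.univ.filter
        (fun i => x (Fin.castAdd k i) ≠ c i)).image (Fin.castAdd k)) ?_) Finset.card_image_le
      intro i hi
      rw [Finset.mem_filter] at hi
      rw [Finset.mem_image]
      induction i using Fin.addCases with
      | left i =>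
        refine ⟨i, ?_, rfl⟩
        rw [Finset.mem_filter]
        refine ⟨Finset.mem_univ _, ?_⟩
        have h1 := hi.2
        rwa [Fin.append_left] at h1
      | right j =>
        exfalso
        apply hi.2
        rw [Fin.append_right]
  · refine Finset.card_image_le.trans ?_
    rw [Finset.card_product, Finset.card_univ, Fintype.card_fun, Fintype.card_bool,
      Fintype.card_fin]
    exact Nat.mul_le_mul_right _ hN

end Pool.Agent.U324.KP
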